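import Mathlib
import Pool.Agent.Helper75.NumSgp

set_option autoImplicit false

namespace Pool.Agent.Results.MP_b9977e_al.AllFields

open MvPolynomial

/-- The set of minimal generators of an additive submonoid `Γ` of `ℕ`: the nonzero elements of `Γ`
that are not a sum of two nonzero elements of `Γ`. -/
def minimalGenerators (Γ : AddSubmonoid ℕ) : Set ℕ :=
  {x : ℕ | x ∈ Γ ∧ x ≠ 0 ∧ ∀ a ∈ Γ, ∀ b ∈ Γ, a + b = x → a = 0 ∨ b = 0}

/-- The toric ideal: the kernel of `𝕜[x_1, …, x_e] → 𝕜[t]`, `x_i ↦ t ^ g_i`. -/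
noncomputable def toricIdeal (K : Type*) [Field K] {e : ℕ} (g : Fin e → ℕ) :
    Ideal (MvPolynomial (Fin e) K) :=
  RingHom.ker (MvPolynomial.aeval (fun i : Fin e => (Polynomial.X : Polynomial K) ^ g i))

/-- `f` is a minimal generator of the ideal `I` for the grading `deg x_i = g_i`: it is an element
of some minimal homogeneous generating set `B` of `I`. -/
def IsMinimalGenerator {K : Type*} [Field K] {e : ℕ} (g : Fin e → ℕ)
    (I : Ideal (MvPolynomial (Fin e) K)) (f : MvPolynomial (Fin e) K) : Prop :=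
  ∃ B : Set (MvPolynomial (Fin e) K),
    (∀ b ∈ B, ∃ n : ℕ, MvPolynomial.IsWeightedHomogeneous g b n) ∧
    Ideal.span B = I ∧ (∀ B' : Set (MvPolynomial (Fin e) K), B' ⊂ B → Ideal.span B' ≠ I) ∧ f ∈ B

theorem component_mul {K : Type*} [Field K] {e : ℕ} (g : Fin e → ℕ)
    (hg0 : ∀ i, g i ≠ 0) (p f : MvPolynomial (Fin e) K) (d : ℕ)
    (hd : IsWeightedHomogeneous g f d) :
    weightedHomogeneousComponent g d (p * f) = C (coeff 0 p) * f := by
  classical
  let _ := weightedGradedAlgebra K g
  have h2 := DirectSum.coe_decompose_mul_add_of_right_mem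
    (weightedHomogeneousSubmodule K g) (i := 0) (j := d) (a := p) (b := f) hd
  have h3 : ∀ (q : MvPolynomial (Fin e) K) (n : ℕ),
      ((DirectSum.decompose (weightedHomogeneousSubmodule K g) q n :
        weightedHomogeneousSubmodule K g n) : MvPolynomial (Fin e) K)
      = weightedHomogeneousComponent g n q :=
    fun q n => weightedDecomposition.decompose'_apply K g q n
  rw [h3, h3, zero_add, weightedHomogeneousComponent_zero _ hg0] at h2
  exact h2

theorem component_mem_span {K : Type*} [Field K] {e : ℕ} (g : Fin e → ℕ)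
    (B : Set (MvPolynomial (Fin e) K))
    (hB : ∀ b ∈ B, ∃ n : ℕ, MvPolynomial.IsWeightedHomogeneous g b n)
    (a : MvPolynomial (Fin e) K) (ha : a ∈ Ideal.span B) (d : ℕ) :
    weightedHomogeneousComponent g d a ∈ Ideal.span B := by
  classical
  let _ := weightedGradedAlgebra K g
  have hhom : (Ideal.span B).IsHomogeneous (weightedHomogeneousSubmodule K g) := by
    refine Ideal.homogeneous_span _ _ (fun b hb => ?_)
    obtain ⟨n, hn⟩ := hB b hb
    exact ⟨n, hn⟩
  exact weightedHomogeneousComponent_mem_of_mem K g hhom ha d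

theorem not_mem_of_isMinimalGenerator {K : Type*} [Field K] {e : ℕ} (g : Fin e → ℕ)
    (hg0 : ∀ i, g i ≠ 0)
    (I : Ideal (MvPolynomial (Fin e) K)) (f : MvPolynomial (Fin e) K)
    (hf : IsMinimalGenerator g I f) (d : ℕ) (hd : IsWeightedHomogeneous g f d) :
    f ∉ Ideal.span (Set.range (X : Fin e → MvPolynomial (Fin e) K)) * I := by
  classical
  obtain ⟨B, hB, hBI, hmin, hfB⟩ := hf
  intro hmem
  set J : Ideal (MvPolynomial (Fin e) K) :=
    Ideal.span (Set.range (X : Fin e → MvPolynomial (Fin e) K)) with hJ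
  set B' := B \ {f} with hB'
  have hBins : B = insert f B' := by
    rw [hB', Set.insert_sdiff_singleton, Set.insert_eq_of_mem hfB]
  have hss : B' ⊂ B := by
    refine ⟨Set.sdiff_subset, fun h => ?_⟩
    exact (h hfB).2 rfl
  apply hmin B' hss
  have hIsup : I = Ideal.span {f} ⊔ Ideal.span B' := by
    rw [← hBI, hBins, Ideal.span_insert]
  have hfB' : f ∈ Ideal.span B' := by
    rw [hIsup, Ideal.mul_sup] at hmem
    obtain ⟨x, hx, a, ha, hxa⟩ := Submodule.mem_sup.mp hmem
    obtain ⟨p, hp, rfl⟩ := Ideal.mem_mul_span_singleton.mp hx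
    have ha' : a ∈ Ideal.span B' := Ideal.mul_le_right ha
    have hcomp := component_mem_span g B' (fun b hb => hB b hb.1) a ha' d
    have h1 : weightedHomogeneousComponent g d (p * f) = 0 := by
      have h2 := component_mul g hg0 p f d hd
      have h4 : coeff 0 p = 0 := by
        have h5 : J ≤ RingHom.ker (constantCoeff (σ := Fin e) (R := K)) := by
          rw [hJ, Ideal.span_le]
          rintro _ ⟨i, rfl⟩
          simp [RingHom.mem_ker]
        have h6 := h5 hp
        rwa [RingHom.mem_ker, constantCoeff_eq] at h6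
      rw [h2, h4, map_zero, zero_mul]
    have h2 : weightedHomogeneousComponent g d f = f := weightedHomogeneousComponent_eq_self hd
    rw [← h2, ← hxa, map_add, h1, zero_add]
    exact hcomp
  rw [← hBI]
  refine le_antisymm (Ideal.span_mono hss.1) ?_
  rw [Ideal.span_le]
  intro b hb
  by_cases hbf : b = f
  · rw [hbf]; exact hfB'
  · exact Ideal.subset_span ⟨hb, hbf⟩

/-- For every numerical semigroup `Γ` with minimal generators `g_1 < ⋯ < g_e`, Frobenius number
`F = max (ℤ \ Γ)` and `η = #{γ ∈ Γ : γ < F}`, and every field `K`, every minimal generator of the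
toric ideal of `Γ` over `K` has degree at most `e (η - 1) + ∑ g_i + 1`. -/
theorem result (K : Type*) [Field K] (Γ : AddSubmonoid ℕ) (hΓ : {n : ℕ | n ∉ Γ}.Finite)
    (F : ℤ) (hF : IsGreatest {z : ℤ | ¬ ∃ γ ∈ Γ, (γ : ℤ) = z} F)
    (e : ℕ) (g : Fin e → ℕ) (hg : StrictMono g) (hgen : Set.range g = minimalGenerators Γ)
    (f : MvPolynomial (Fin e) K) (hf : IsMinimalGenerator g (toricIdeal K g) f)
    (d : ℕ) (hd : MvPolynomial.IsWeightedHomogeneous g f d) :
    (d : ℤ) ≤ e * ((Set.ncard {γ : ℕ | γ ∈ Γ ∧ (γ : ℤ) < F} : ℤ) - 1) + ∑ i, (g i : ℤ) + 1 := by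
  have hg0 : ∀ i, g i ≠ 0 := by
    intro i
    have : g i ∈ Set.range g := ⟨i, rfl⟩
    rw [hgen] at this; exact this.2.1
  have hnot := not_mem_of_isMinimalGenerator g hg0 _ f hf d hd
  have hker : f ∈ toricIdeal K g := by
    obtain ⟨B, hB, hBI, hmin, hfB⟩ := hf
    rw [← hBI]; exact Ideal.subset_span hfB
  by_cases hF0 : 0 ≤ F
  · obtain ⟨F', rfl⟩ := Int.eq_ofNat_of_zero_le hF0
    have h1 : F' ∉ Γ := fun h => hF.1 ⟨F', h, rfl⟩
    have h2 : ∀ n : ℕ, F' < n → n ∈ Γ := by
      intro n hn
      by_contra hcon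
      have : (n : ℤ) ≤ F' := by
        refine hF.2 ?_
        rintro ⟨γ, hγ, hγn⟩
        exact hcon (by rwa [Nat.cast_inj.mp hγn] at hγ)
      omega
    have h3 := Pool.Agent.Helper75.NumSgp.main Γ F' h1 h2 e g hg.injective hgen f d hker hd hnot
    have hset : {γ : ℕ | γ ∈ Γ ∧ (γ : ℤ) < (F' : ℤ)} = {γ : ℕ | γ ∈ Γ ∧ γ < F'} := by
      ext γ; simp
    rw [hset]
    have h4 : 1 ≤ Set.ncard {γ : ℕ | γ ∈ Γ ∧ γ < F'} := by
      have hfin : {γ : ℕ | γ ∈ Γ ∧ γ < F'}.Finite :=
        (Set.finite_lt_nat F').subset (fun x hx => hx.2)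
      rw [Nat.one_le_iff_ne_zero]
      intro h
      rw [Set.ncard_eq_zero hfin] at h
      have hpos : 0 < F' := by
        rcases Nat.eq_zero_or_pos F' with h | h
        · exact absurd Γ.zero_mem (h ▸ h1)
        · exact h
      have : (0 : ℕ) ∈ {γ : ℕ | γ ∈ Γ ∧ γ < F'} := ⟨Γ.zero_mem, hpos⟩
      rw [h] at this
      exact this
    have h5 : ((d : ℕ) : ℤ) ≤ ((e * (Set.ncard {γ : ℕ | γ ∈ Γ ∧ γ < F'} - 1)
        + ∑ i, g i + 1 : ℕ) : ℤ) := by exact_mod_cast h3
    rw [Nat.cast_add, Nat.cast_add, Nat.cast_mul, Nat.cast_sub h4, Nat.cast_sum] at h5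
    simpa using h5
  · -- `Γ = ℕ`: there is no minimal generator
    exfalso
    push Not at hF0
    have htop : ∀ n : ℕ, n ∈ Γ := by
      intro n
      by_contra hcon
      have : (n : ℤ) ≤ F := by
        refine hF.2 ?_
        rintro ⟨γ, hγ, hγn⟩
        exact hcon (by rwa [Nat.cast_inj.mp hγn] at hγ)
      omega
    have hone : ∀ i, g i = 1 := by
      intro i
      have h1 : g i ∈ Set.range g := ⟨i, rfl⟩
      rw [hgen] at h1
      rcases h1.2.2 1 (htop 1) (g i - 1) (htop _) (by have := hg0 i; omega) with h | h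
      · exact absurd h one_ne_zero
      · have := hg0 i; omega
    have hsub : ∀ i j : Fin e, i = j := fun i j => hg.injective ((hone i).trans (hone j).symm)
    apply hnot
    have hzero : f = 0 := by
      by_contra hf0
      obtain ⟨v0, hv0⟩ := Finset.nonempty_iff_ne_empty.mpr
        (fun h => hf0 (support_eq_empty.mp h))
      have huniq : ∀ u ∈ f.support, u = v0 := by
        intro u hu
        have h1 := hd (mem_support_iff.mp hu)
        have h2 := hd (mem_support_iff.mp hv0)
        rw [Pool.Agent.Helper75.NumSgp.weight_eq] at h1 h2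
        ext i
        have h3 : ∀ v : Fin e →₀ ℕ, ∑ j, v j * g j = v i := by
          intro v
          rw [Finset.sum_eq_single i (fun j _ hj => absurd (hsub j i) hj)
            (fun h => absurd (Finset.mem_univ i) h), hone i, mul_one]
        rw [h3] at h1 h2
        omega
      have hsupp : f.support = {v0} := Finset.eq_singleton_iff_unique_mem.mpr ⟨hv0, huniq⟩
      have h1 : MvPolynomial.aeval
          (fun i : Fin e => (Polynomial.X : Polynomial K) ^ g i) f = 0 := hker
      rw [f.as_sum, hsupp, Finset.sum_singleton,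
        Pool.Agent.Helper75.NumSgp.aeval_monomial_eq] at h1
      rcases mul_eq_zero.mp h1 with h | h
      · exact mem_support_iff.mp hv0 (Polynomial.C_eq_zero.mp h)
      · exact pow_ne_zero _ Polynomial.X_ne_zero h
    rw [hzero]
    exact Ideal.zero_mem _

end Pool.Agent.Results.MP_b9977e_al.AllFields
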